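import Mathlib

set_option autoImplicit false

namespace Pool.Agent.H.MP_6f5b46_pr

open Finset

noncomputable section

/-- king moves -/
def D : Finset (ℤ × ℤ) := Icc (-1) 1 ×ˢ Icc (-1) 1

/-- a site and its four neighbours -/
def N0 : Finset (ℤ × ℤ) := {(0, 0), (1, 0), (-1, 0), (0, 1), (0, -1)}

/-- sites visited by a walk -/
def W : ℤ × ℤ → List (ℤ × ℤ) → Finset (ℤ × ℤ)
  | v, [] => {v}
  | v, d :: l => insert v (W (v + d) l)

theorem memD {d : ℤ × ℤ} : d ∈ D ↔ (-1 ≤ d.1 ∧ d.1 ≤ 1) ∧ -1 ≤ d.2 ∧ d.2 ≤ 1 := by simp [D]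

theorem negD {d : ℤ × ℤ} (h : d ∈ D) : -d ∈ D := by
  simp only [memD, Prod.fst_neg, Prod.snd_neg] at *
  omega

theorem negN {d : ℤ × ℤ} (h : d ∈ N0) : -d ∈ N0 := by revert d; decide

theorem self_mem (v : ℤ × ℤ) (l : List (ℤ × ℤ)) : v ∈ W v l := by cases l <;> simp [W]

theorem ins {d y : ℤ × ℤ} (hd : d ∈ D) (l : List (ℤ × ℤ)) : ∀ v, y ∈ W v l → (∀ e ∈ l, e ∈ D) →
    ∃ l' : List (ℤ × ℤ), l'.length = l.length + 2 ∧ (∀ e ∈ l', e ∈ D) ∧ W v l' = insert (y + d) (W v l) := by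
  have k : ∀ l : List (ℤ × ℤ), (∀ e ∈ l, e ∈ D) → ∃ l' : List (ℤ × ℤ), l'.length = l.length + 2 ∧ (∀ e ∈ l', e ∈ D) ∧
      W y l' = insert (y + d) (W y l) := fun l h => ⟨d :: -d :: l, rfl, by simpa [hd, negD hd] using h, by
    rw [W, W, add_neg_cancel_right, insert_comm, insert_eq_of_mem (self_mem _ _)]⟩
  induction l with
  | nil => intro v h; rw [← mem_singleton.1 h]; exact k _
  | cons e l ih =>
    intro v h g
    rcases mem_insert.1 h with rfl | h
    · exact k _ g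
    obtain ⟨l', a, b, c⟩ := ih _ h fun _ m => g _ (.tail _ m)
    exact ⟨e :: l', by simp [a], by simpa [g e] using b, by rw [W, W, c, insert_comm]⟩

theorem far {y : ℤ × ℤ} (l : List (ℤ × ℤ)) : ∀ v, y ∈ W v l → (∀ e ∈ l, e ∈ D) → y.1 ≤ v.1 + l.length := by
  induction l with
  | nil => intro v h _; simp [mem_singleton.1 h]
  | cons e l ih =>
    intro v h g
    rcases mem_insert.1 h with rfl | h
    · omega
    have := ih _ h fun _ m => g _ (.tail _ m)
    have := memD.1 (g e (.head _))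
    simp only [Prod.fst_add, List.length_cons] at *
    omega

/-- a union of components -/
def Cl (E Γ : Finset (ℤ × ℤ)) : Prop := Γ ⊆ E ∧ ∀ y ∈ Γ, ∀ d ∈ D, y + d ∈ E → y + d ∈ Γ

theorem cover {E : Finset (ℤ × ℤ)} {v : ℤ × ℤ} (h : v ∈ E) :
    ∃ l : List (ℤ × ℤ), (∀ e ∈ l, e ∈ D) ∧ l.length + 2 ≤ 2 * #(W v l) ∧ Cl E (W v l) := by
  obtain ⟨l, ⟨a, b, c⟩, m⟩ := (InvImage.wf (fun l => #E - #(W v l)) wellFounded_lt).has_min
    {l | (∀ e ∈ l, e ∈ D) ∧ l.length + 2 ≤ 2 * #(W v l) ∧ W v l ⊆ E} ⟨[], by simp [W, h]⟩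
  refine ⟨l, a, b, c, fun y hy d hd k => by_contra fun n => ?_⟩
  obtain ⟨l', e, f, g⟩ := ins hd l v hy a
  have s : W v l' ⊆ E := g ▸ insert_subset k c
  have := card_le_card s
  have q : #(W v l') = #(W v l) + 1 := by rw [g, card_insert_of_notMem n]
  exact m l' ⟨f, by omega, s⟩ (show #E - #(W v l') < #E - #(W v l) by omega)

/-- the box -/
def B (L : ℕ) : Finset (ℤ × ℤ) := Icc (-L : ℤ) L ×ˢ Icc (-L : ℤ) L

theorem memB {L : ℕ} {d : ℤ × ℤ} : d ∈ B L ↔ (-L ≤ d.1 ∧ d.1 ≤ L) ∧ -L ≤ d.2 ∧ d.2 ≤ L := by simp [B]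

/-- two-type hard-core configurations with boundary condition -/
def S (L : ℕ) : Set ((ℤ × ℤ) × Bool → Bool) :=
  {τ | (∀ z, ∀ d ∈ N0, τ (z, true) = true → τ (z + d, false) = false) ∧ ∀ z ∉ B L, ∀ c, τ (z, c) = c}

/-- empty sites -/
def E (L : ℕ) (τ : (ℤ × ℤ) × Bool → Bool) : Finset (ℤ × ℤ) := {z ∈ B L | τ (z, true) = false ∧ τ (z, false) = false}

/-- not plus -/
def r (τ : (ℤ × ℤ) × Bool → Bool) (z : ℤ × ℤ) : ZMod 2 := if τ (z, true) then 0 else 1

/-- the cocycle -/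
def h (τ : (ℤ × ℤ) × Bool → Bool) (Γ : Finset (ℤ × ℤ)) (z y : ℤ × ℤ) : ZMod 2 :=
  if z ∈ Γ ∨ y ∈ Γ then r τ z + r τ y else 0

/-- its primitive -/
def f (L : ℕ) (τ : (ℤ × ℤ) × Bool → Bool) (Γ : Finset (ℤ × ℤ)) (z : ℤ × ℤ) : ZMod 2 :=
  ∑ t ∈ Ico (-L - 1 : ℤ) z.1, h τ Γ (t, z.2) (t + 1, z.2)

variable {L : ℕ} {τ : (ℤ × ℤ) × Bool → Bool} {Γ : Finset (ℤ × ℤ)}

theorem memE (s : τ ∈ S L) {z : ℤ × ℤ} : z ∈ E L τ ↔ τ (z, true) = false ∧ τ (z, false) = false := by
  refine mem_filter.trans (and_iff_right_of_imp fun k => by_contra fun n => ?_)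
  simp [s.2 z n] at k

theorem dif (s : τ ∈ S L) {z d : ℤ × ℤ} (hd : d ∈ N0) :
    r τ z + r τ (z + d) = 0 ∨ z ∈ E L τ ∨ z + d ∈ E L τ := by
  have a := s.1 z d hd
  have b := s.1 (z + d) _ (negN hd)
  rw [add_neg_cancel_right] at b
  simp only [memE s, r]
  cases e : τ (z, true) <;> cases g : τ (z + d, true) <;> simp_all
  exact .inl rfl

theorem edge (s : τ ∈ S L) (c : Cl (E L τ) Γ) {y z d : ℤ × ℤ} (hy : y ∈ Γ) (hd : d ∈ N0) (a : z - y ∈ D)
    (b : z + d - y ∈ D) : h τ Γ z (z + d) = r τ z + r τ (z + d) := by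
  refine ite_eq_left_iff.2 fun n => ((dif s hd).resolve_right fun k => n (k.imp (fun k => ?_) fun k => ?_)).symm
  · simpa using c.2 y hy _ a (by simpa)
  simpa using c.2 y hy _ b (by simpa)

theorem hout (c : Γ ⊆ E L τ) {z y : ℤ × ℤ} (a : z ∉ B L) (b : y ∉ B L) : h τ Γ z y = 0 :=
  if_neg fun k => k.elim (fun k => a (filter_subset _ _ (c k))) fun k => b (filter_subset _ _ (c k))

theorem fh (c : Γ ⊆ E L τ) (i j : ℤ) : f L τ Γ (i + 1, j) = f L τ Γ (i, j) + h τ Γ (i, j) (i + 1, j) := by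
  rcases le_or_gt (-L - 1 : ℤ) i with k | k
  · rw [f, ← insert_Ico_right_eq_Ico_add_one k, sum_insert right_notMem_Ico, add_comm, f]
  rw [f, f, Ico_eq_empty_of_le (show i + 1 ≤ _ from k), Ico_eq_empty_of_le k.le, hout c] <;> simp [memB] <;> omega

theorem fv (s : τ ∈ S L) (c : Cl (E L τ) Γ) (i j : ℤ) :
    f L τ Γ (i, j + 1) = f L τ Γ (i, j) + h τ Γ (i, j) (i, j + 1) := by
  have z : ∀ i ≤ (-L - 1 : ℤ), f L τ Γ (i, j + 1) = f L τ Γ (i, j) + h τ Γ (i, j) (i, j + 1) := fun i k => by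
    rw [f, f, Ico_eq_empty_of_le k, hout c.1] <;> simp [memB] <;> omega
  rcases le_total i (-L - 1 : ℤ) with k | k
  · exact z i k
  induction i, k using Int.leInduction with
  | base => exact z _ le_rfl
  | succ i _ ih =>
    rw [fh c.1, fh c.1, ih]
    by_cases n : ∃ y ∈ Γ, (y.1 = i ∨ y.1 = i + 1) ∧ (y.2 = j ∨ y.2 = j + 1)
    · obtain ⟨y, hy, n⟩ := n
      have e := fun (z d : ℤ × ℤ) => edge s c hy (z := z) (d := d)
      have a := e (i, j) (0, 1) (by decide) (by simp [memD]; omega) (by simp [memD]; omega)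
      have b := e (i, j) (1, 0) (by decide) (by simp [memD]; omega) (by simp [memD]; omega)
      have p := e (i, j + 1) (1, 0) (by decide) (by simp [memD]; omega) (by simp [memD]; omega)
      have q := e (i + 1, j) (0, 1) (by decide) (by simp [memD]; omega) (by simp [memD]; omega)
      simp only [Prod.mk_add_mk, add_zero] at a b p q
      rw [a, b, p, q]
      linear_combination CharTwo.add_self_eq_zero (r τ (i, j + 1)) - CharTwo.add_self_eq_zero (r τ (i + 1, j))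
    push Not at n
    have := fun k => n (i, j) k
    have := fun k => n (i + 1, j) k
    have := fun k => n (i, j + 1) k
    have := fun k => n (i + 1, j + 1) k
    simp_all [h]

theorem hs (z y : ℤ × ℤ) : h τ Γ z y = h τ Γ y z := by simp only [h, or_comm, add_comm]

theorem adj (s : τ ∈ S L) (c : Cl (E L τ) Γ) (z : ℤ × ℤ) {d : ℤ × ℤ} (hd : d ∈ N0) :
    f L τ Γ (z + d) = f L τ Γ z + h τ Γ z (z + d) := by
  obtain ⟨i, j⟩ := z
  simp only [N0, mem_insert, mem_singleton] at hd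
  rcases hd with rfl | rfl | rfl | rfl | rfl <;> simp only [Prod.mk_add_mk, add_zero]
  · simp [h, CharTwo.add_self_eq_zero]
  · exact fh c.1 i j
  · have := fh c.1 (i + -1) j
    rw [neg_add_cancel_right] at this
    rw [this, hs (i, j), add_assoc, CharTwo.add_self_eq_zero, add_zero]
  · exact fv s c i j
  have := fv s c i (j + -1)
  rw [neg_add_cancel_right] at this
  rw [this, hs (i, j), add_assoc, CharTwo.add_self_eq_zero, add_zero]

theorem fout (s : τ ∈ S L) (c : Cl (E L τ) Γ) {z : ℤ × ℤ} (n : z ∉ B L) : f L τ Γ z = 0 := by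
  obtain ⟨i, j⟩ := z
  have a : ∀ i j : ℤ, j < -L ∨ L < j → f L τ Γ (i, j) = 0 := fun i j k =>
    sum_eq_zero fun t _ => hout c.1 (by simp [memB]; omega) (by simp [memB]; omega)
  rcases lt_or_ge i (-L) with k | k
  · rw [f, Ico_eq_empty_of_le (by omega), sum_empty]
  rcases lt_or_ge (L : ℤ) i with k | k
  · rcases le_total j (-L - 1 : ℤ) with m | m
    · exact a _ _ (by omega)
    clear n
    induction j, m using Int.leInduction with
    | base => exact a _ _ (by omega)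
    | succ j _ ih => rw [fv s c, ih, hout c.1] <;> simp [memB] <;> omega
  exact a _ _ (by simp [memB] at n; omega)

theorem pick (s : τ ∈ S L) (n : τ (0, true) = false) : ∃ (k : ℕ) (l : List (ℤ × ℤ)), (∀ e ∈ l, e ∈ D) ∧
    k ≤ l.length ∧ l.length + 2 ≤ 2 * #(W (-k, 0) l) ∧ Cl (E L τ) (W (-k, 0) l) := by
  have a : ∀ i : ℤ, -L - 1 ≤ i → f L τ (E L τ) (i, 0) = r τ (i, 0) := fun i k => by
    induction i, k using Int.leInduction with
    | base => simp [f, r, s.2 (-L - 1, 0) (by simp [memB])]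
    | succ i _ ih =>
      have := dif s (z := (i, 0)) (d := (1, 0)) (by decide)
      simp only [Prod.mk_add_mk, add_zero] at this
      rw [fh subset_rfl, ih, h]
      split_ifs with k
      · rw [← add_assoc, CharTwo.add_self_eq_zero, zero_add]
      rw [add_zero, ← CharTwo.add_eq_zero.1 (this.resolve_right k)]
  suffices ∀ F, Cl (E L τ) F → f L τ F 0 ≠ 0 → _ from this _ ⟨subset_rfl, fun _ _ _ _ k => k⟩
    (by rw [show (0 : ℤ × ℤ) = (0, 0) from rfl, a 0 (by omega), r, show τ ((0, 0), true) = false from n]; simp)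
  intro F
  induction F using Finset.strongInduction with
  | H F ih =>
    intro c k
    obtain ⟨t, t1, t2⟩ := exists_ne_zero_of_sum_ne_zero k
    obtain ⟨m, hm⟩ : ∃ m : ℕ, (-(m : ℤ), (0 : ℤ)) ∈ F := by
      have : t < 0 := (mem_Ico.1 t1).2
      rcases (ite_ne_right_iff.1 t2).1 with u | u
      · exact ⟨(-t).toNat, by convert u using 2; exacts [by omega, rfl]⟩
      exact ⟨(-t - 1).toNat, by convert u using 2; exacts [by omega, rfl]⟩
    obtain ⟨l, l1, l2, l3⟩ := cover hm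
    have c1 : Cl (E L τ) (W (-m, 0) l) := ⟨l3.1.trans c.1, fun y hy d hd u => l3.2 y hy d hd (c.2 y (l3.1 hy) d hd u)⟩
    by_cases u : f L τ (W (-m, 0) l) 0 = 0
    · refine ih (F \ W (-m, 0) l) (sdiff_ssubset l3.1 ⟨_, self_mem _ _⟩) ⟨sdiff_subset.trans c.1, fun y hy d hd w =>
        mem_sdiff.2 ⟨c.2 y (mem_sdiff.1 hy).1 d hd w, fun x => (mem_sdiff.1 hy).2 ?_⟩⟩ fun w => k ?_
      · simpa using l3.2 _ x _ (negD hd) (by simpa using (mem_sdiff.1 hy).1)
      refine Eq.trans ?_ ((congrArg₂ (· + ·) u w).trans (add_zero 0))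
      rw [f, f, f, ← sum_add_distrib]
      refine sum_congr rfl fun t _ => ?_
      have e : ∀ z ∈ F, r τ z = 1 := fun z x => by simp [r, ((memE s).1 (c.1 x)).1]
      have := @l3.1
      have := e (t, 0)
      have := e (t + 1, 0)
      simp only [h, mem_sdiff, Prod.snd_zero]
      have : (1 + 1 : ZMod 2) = 0 := rfl
      grind
    refine ⟨m, l, l1, by_contra fun x => u ?_, l2, c1⟩
    have : ∀ i : ℤ, 0 ≤ i → f L τ (W (-m, 0) l) (i, 0) = f L τ (W (-m, 0) l) 0 := fun i k => by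
      induction i, k using Int.leInduction with
      | base => rfl
      | succ i _ ih =>
        rw [fh c1.1, ih, h, if_neg, add_zero]
        rintro (w | w) <;> have := far l _ w l1 <;> omega
    rw [← this (L + 1) (by omega), fout s c1 (by simp [memB])]

end

end Pool.Agent.H.MP_6f5b46_pr
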