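import Mathlib
import Pool.Agent.H.MP_6f5b46_pr.A

set_option autoImplicit false

namespace Pool.Agent.H.MP_6f5b46_pr

open Finset

noncomputable section

variable {L : ℕ} {τ : (ℤ × ℤ) × Bool → Bool} {Γ : Finset (ℤ × ℤ)}

theorem fin (L : ℕ) : (S L).Finite :=
  .of_finite_image (f := (B L ×ˢ univ).restrict) (Set.toFinite _) fun τ s σ t e => funext fun ⟨z, c⟩ => by
    by_cases k : z ∈ B L
    · exact congrFun e ⟨(z, c), by simp [k]⟩
    rw [s.2 z k, t.2 z k]

/-- the Peierls map -/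
def Φ (L : ℕ) (Γ : Finset (ℤ × ℤ)) (τ : (ℤ × ℤ) × Bool → Bool) (x : (ℤ × ℤ) × Bool) : Bool :=
  decide (x.1 ∉ E L τ \ Γ ∧ r τ x.1 + f L τ Γ x.1 = if x.2 then 0 else 1)

theorem ΦS (s : τ ∈ S L) (c : Cl (E L τ) Γ) : Φ L Γ τ ∈ S L := by
  refine ⟨fun z d hd a => decide_eq_false fun b => ?_, fun z n x => ?_⟩
  · obtain ⟨a, p⟩ := of_decide_eq_true a
    obtain ⟨b, q⟩ := b
    simp only [adj s c z hd, h, mem_sdiff, ↓reduceIte, Bool.false_eq_true] at a b p q
    have := dif s (z := z) hd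
    have : (0 : ZMod 2) ≠ 1 := zero_ne_one
    split_ifs at q with k
    · exact this (by linear_combination q - p - CharTwo.add_self_eq_zero (r τ (z + d)))
    have u : r τ z + r τ (z + d) = 0 := by tauto
    exact this (by linear_combination q - p - u + CharTwo.add_self_eq_zero (r τ z))
  cases x <;> simp [Φ, fout s c n, r, s.2 z n, E, n]

theorem EΦ (s : τ ∈ S L) (c : Cl (E L τ) Γ) : E L (Φ L Γ τ) = E L τ \ Γ := by
  ext z
  rw [memE (ΦS s c)]
  have : ∀ x : ZMod 2, x = 0 ∨ x = 1 := by decide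
  have := this (r τ z + f L τ Γ z)
  simp only [Φ, decide_eq_false_iff_not, ↓reduceIte, Bool.false_eq_true]
  tauto

/-- weight -/
def w (ε : ℝ) (L : ℕ) (τ : (ℤ × ℤ) × Bool → Bool) : ℝ := ε ^ #(E L τ)

open Classical in
theorem peierls {ε : ℝ} (ε0 : 0 ≤ ε) (L : ℕ) (Γ : Finset (ℤ × ℤ)) :
    ∑ τ ∈ (fin L).toFinset with Cl (E L τ) Γ, w ε L τ ≤ (4 * ε) ^ #Γ * ∑ τ ∈ (fin L).toFinset, w ε L τ := by
  rw [← sum_fiberwise_of_maps_to (t := Γ.powerset ×ˢ Γ.powerset) (g := fun τ =>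
    ({z ∈ Γ | τ (z + (1, 0), true)}, {z ∈ Γ | τ (z + (-1, 0), true)})) (by simp)]
  refine (sum_le_card_nsmul _ _ (ε ^ #Γ * ∑ τ ∈ (fin L).toFinset, w ε L τ) fun P _ => ?_).trans_eq
    (by simp [mul_pow, ← mul_assoc, ← mul_pow 2 2])
  rw [sum_congr rfl (g := fun τ => ε ^ #Γ * w ε L (Φ L Γ τ)), ← mul_sum, ← sum_image (f := w ε L)]
  · refine mul_le_mul_of_nonneg_left (sum_le_sum_of_subset_of_nonneg (image_subset_iff.2 fun τ k => ?_)
      fun _ _ _ => pow_nonneg ε0 _) (pow_nonneg ε0 _)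
    simp only [mem_filter, Set.Finite.mem_toFinset] at k ⊢
    exact ΦS k.1.1 k.1.2
  · intro τ a σ b e
    simp only [coe_filter, mem_filter, Set.Finite.mem_toFinset, Set.mem_ofPred_eq] at a b
    obtain ⟨⟨s, c⟩, a⟩ := a
    obtain ⟨⟨s', c'⟩, b⟩ := b
    obtain ⟨p, q⟩ := Prod.mk.inj (a.trans b.symm)
    have g : ∀ z, f L τ Γ z = f L σ Γ z := fun z => sum_congr rfl fun t _ => if_ctx_congr .rfl (fun k => ?_) fun _ => rfl
    · have ee : E L τ = E L σ := by rw [← sdiff_union_of_subset c.1, ← sdiff_union_of_subset c'.1, ← EΦ s c, e, EΦ s' c']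
      ext ⟨z, x⟩
      have u := Finset.ext_iff.1 ee z
      have v := congrFun e (z, true)
      have h1 := s.1 z 0 (by decide)
      have h2 := s'.1 z 0 (by decide)
      rw [memE s, memE s'] at u
      simp only [memE s, Φ, g, ← ee, mem_sdiff, r, add_zero, decide_eq_decide, ↓reduceIte] at v h1 h2
      clear * - u v h1 h2
      have : ∀ x : ZMod 2, x = 0 ∨ x = 1 := by decide
      have := this (f L σ Γ z)
      have : (1 + 1 : ZMod 2) = 0 := rfl
      cases x <;> grind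
    have p := Finset.ext_iff.1 p (t, z.2)
    have q := Finset.ext_iff.1 q (t + 1, z.2)
    have := fun z k => (memE s (z := z)).1 (c.1 k)
    have := fun z k => (memE s' (z := z)).1 (c'.1 k)
    simp only [mem_filter, Prod.mk_add_mk, add_zero, add_neg_cancel_right, r] at p q ⊢
    grind
  intro τ k
  simp only [mem_filter, Set.Finite.mem_toFinset] at k
  rw [w, w, EΦ k.1.1 k.1.2, ← pow_add, add_comm, card_sdiff_add_card_eq_card k.1.2.1]

theorem bound (L : ℕ) : ∑ τ ∈ (fin L).toFinset with τ (0, true) = false, w (1 / 10000) L τ ≤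
    1 / 3 * ∑ τ ∈ (fin L).toFinset, w (1 / 10000) L τ := by
  classical
  let I := (range (2 * #(B L))).sigma fun m => range (m + 1) ×ˢ (Fintype.piFinset fun _ : Fin m => D)
  have w0 : ∀ τ, 0 ≤ w (1 / 10000) L τ := fun _ => pow_nonneg (by norm_num) _
  have Z := sum_nonneg fun τ (_ : τ ∈ (fin L).toFinset) => w0 τ
  calc _ ≤ ∑ τ ∈ (fin L).toFinset, ∑ i ∈ I, if i.1 + 2 ≤ 2 * #(W (-i.2.1, 0) (.ofFn i.2.2)) ∧
        Cl (E L τ) (W (-i.2.1, 0) (.ofFn i.2.2)) then w (1 / 10000) L τ else 0 := by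
        rw [sum_filter]
        refine sum_le_sum fun τ s => ?_
        have p := fun (i : Σ m, ℕ × (Fin m → ℤ × ℤ)) (_ : i ∈ I) => ite_nonneg
          (p := i.1 + 2 ≤ 2 * #(W (-i.2.1, 0) (.ofFn i.2.2)) ∧ Cl (E L τ) (W (-i.2.1, 0) (.ofFn i.2.2))) (w0 τ) le_rfl
        split_ifs with n
        · obtain ⟨k, l, a, b, c, d⟩ := pick ((fin L).mem_toFinset.1 s) n
          have := card_le_card (d.1.trans (filter_subset _ _))
          refine le_trans ?_ (single_le_sum p (a := ⟨l.length, k, l.get⟩) (by simp [I, a]; omega))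
          simp [c, d]
        exact sum_nonneg p
    _ ≤ ∑ i ∈ I, (1 / 50) ^ (i.1 + 2) * ∑ τ ∈ (fin L).toFinset, w (1 / 10000) L τ := by
        rw [sum_comm]
        refine sum_le_sum fun i _ => ?_
        by_cases k : i.1 + 2 ≤ 2 * #(W (-i.2.1, 0) (.ofFn i.2.2))
        · simp only [k, true_and, ← sum_filter]
          refine (peierls (by norm_num) L _).trans (mul_le_mul_of_nonneg_right ?_ Z)
          rw [show (4 * (1 / 10000) : ℝ) = (1 / 50) ^ 2 by norm_num, ← pow_mul]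
          exact pow_le_pow_of_le_one (by norm_num) (by norm_num) k
        simp only [k, false_and, ↓reduceIte, sum_const_zero]
        positivity
    _ ≤ _ := by
        rw [← sum_mul, sum_sigma]
        refine mul_le_mul_of_nonneg_right ((sum_le_sum (g := fun m => 1 / 6 * (1 / 2) ^ m) fun m _ => ?_).trans ?_) Z
        · have : (m + 1 : ℝ) ≤ 2 ^ m := mod_cast Nat.lt_two_pow_self
          simp only [sum_const, card_product, card_range, Fintype.card_piFinset, prod_const, card_fin, nsmul_eq_mul,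
            show #D = 9 by simp [D], pow_add]
          push_cast
          calc _ ≤ 2 ^ m * 9 ^ m * ((1 / 50) ^ m * (1 / 6) : ℝ) := by gcongr; norm_num
            _ = 1 / 6 * (2 * 9 * (1 / 50)) ^ m := by rw [mul_pow, mul_pow]; ring
            _ ≤ _ := by gcongr; norm_num
        rw [← mul_sum]
        linarith [sum_geometric_two_le (2 * #(B L))]

end

end Pool.Agent.H.MP_6f5b46_pr
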