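import Mathlib
import Pool.Agent.H.MP_6f5b46_pr.B

set_option autoImplicit false

namespace Pool.Agent.H.MP_6f5b46_pr

open Finset Filter Topology MeasureTheory ProbabilityTheory Function

noncomputable section

/-- sites -/
abbrev X := (ℤ × ℤ) × ℤ

/-- flip one site -/
def flip (η : X → Bool) (x : X) : X → Bool := update η x (!η x)

/-- the constraint -/
def ok (N : Finset X) (η : X → Bool) (x : X) : Prop := ∀ y ∈ N, η (x + y) = false

open Classical in
/-- the generator -/
def gen (N : Finset X) (p : ℝ) (f : (X → Bool) → ℝ) (η : X → Bool) : ℝ :=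
  ∑' x, (if ok N η x then 1 else 0) * (if η x then 1 - p else p) * (f (flip η x) - f η)

/-- local functions -/
def IsLocal (f : (X → Bool) → ℝ) : Prop := ∃ Λ : Finset X, DependsOn f (Λ : Set X)

/-- the rule -/
def N : Finset X := N0 ×ˢ {1, -1}

/-- the embedding -/
def emb (s : Bool) (τ : (ℤ × ℤ) × Bool → Bool) (x : X) : Bool :=
  if x.2 = 0 then τ (x.1, s) else if x.2 = 1 then τ (x.1, !s) else decide (x.2 ≤ -2 ∨ 3 ≤ x.2)

open Classical in
theorem db0 {L : ℕ} {z : ℤ × ℤ} (hz : z ∈ B L) (c : Bool) (G : ((ℤ × ℤ) × Bool → Bool) → ℝ) :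
    ∑ τ ∈ (fin L).toFinset, w (1 / 10000) L τ * ((if ∀ d ∈ N0, τ (z + d, !c) = false then 1 else 0) *
      (if τ (z, c) then 1 - 10000 / 10001 else 10000 / 10001) * (G (update τ (z, c) (!τ (z, c))) - G τ)) = 0 := by
  have u : ∀ (τ : (ℤ × ℤ) × Bool → Bool) b d, update τ (z, c) b (z + d, !c) = τ (z + d, !c) := fun τ b d =>
    update_of_ne (by simp) _ _
  refine sum_involution (fun τ _ => if ∀ d ∈ N0, τ (z + d, !c) = false then update τ (z, c) (!τ (z, c)) else τ)
    (fun τ _ => ?_) (fun τ _ k => ?_) (fun τ s => ?_) fun τ _ => ?_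
  · by_cases k : ∀ d ∈ N0, τ (z + d, !c) = false
    · have e : ∀ τ : (ℤ × ℤ) × Bool → Bool, τ (z, !c) = false → w (1 / 10000) L (update τ (z, c) false) =
          1 / 10000 * w (1 / 10000) L (update τ (z, c) true) := fun τ k => by
        rw [w, w, ← pow_succ', ← card_insert_of_notMem (a := z) (by cases c <;> simp [E])]
        congr 2
        ext y
        rcases eq_or_ne y z with rfl | n
        · cases c <;> simpa [E, hz] using k
        simp [E, n]
      have := e τ (by simpa using k 0 (by decide))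
      simp only [if_pos k, u, update_self, update_idem, Bool.not_not, update_eq_self]
      cases b : τ (z, c)
      · rw [← b, update_eq_self] at this
        simp only [this, Bool.not_false, Bool.false_eq_true, ↓reduceIte]
        ring
      rw [← b, update_eq_self] at this
      simp only [this, Bool.not_true, Bool.false_eq_true, ↓reduceIte]
      ring
    simp only [if_neg k, zero_mul, mul_zero, add_zero]
  · by_cases n : ∀ d ∈ N0, τ (z + d, !c) = false
    · exact fun e => by simpa using congrFun ((if_pos n).symm.trans e) (z, c)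
    exact (k (by simp only [if_neg n, zero_mul, mul_zero])).elim
  · split_ifs with n
    · rw [Set.Finite.mem_toFinset] at s ⊢
      refine ⟨fun y d hd => ?_, fun y hy b => (update_of_ne (by grind) _ _).trans (s.2 y hy b)⟩
      have a := s.1 y d hd
      have b := n d hd
      have e := n _ (negN hd)
      clear * - a b e
      cases c
      · rcases eq_or_ne z (y + d) with rfl | k
        · simp_all
        simpa [update_apply, k.symm] using a
      rcases eq_or_ne z y with rfl | k
      · simp_all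
      simpa [update_apply, k.symm] using a
    exact s
  split_ifs with a b
  · simp
  · exact (b (by simpa only [u] using a)).elim
  all_goals rfl

open Classical in
theorem db {L : ℕ} (s : Bool) {x : X} (hx : x.1 ∈ B L) (F : (X → Bool) → ℝ) :
    ∑ τ ∈ (fin L).toFinset, w (1 / 10000) L τ * ((if ok N (emb s τ) x then 1 else 0) *
      (if emb s τ x then 1 - 10000 / 10001 else 10000 / 10001) * (F (flip (emb s τ) x) - F (emb s τ))) = 0 := by
  obtain ⟨z, t⟩ := x
  by_cases k : t = 0 ∨ t = 1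
  · convert db0 hx (if t = 0 then s else !s) (fun τ => F (emb s τ)) using 5 with τ _ τ _ τ
    · refine if_congr ?_ rfl rfl
      rcases k with rfl | rfl <;> simp [ok, N, emb, or_imp, forall_and]
    · rcases k with rfl | rfl <;> simp [emb]
    refine congrArg F (funext fun ⟨y, u⟩ => ?_)
    rcases k with rfl | rfl <;> simp only [flip, emb, update_apply, Prod.mk.injEq] <;> grind
  refine sum_eq_zero fun τ _ => ?_
  rw [if_neg, zero_mul, zero_mul, mul_zero]
  intro h
  have := h (0, 1) (by decide)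
  have := h (0, -1) (by decide)
  simp only [emb, Prod.mk_add_mk] at *
  grind

theorem IsLocal.cont {f : (X → Bool) → ℝ} (h : IsLocal f) : Continuous f := by
  obtain ⟨Λ, h⟩ := h
  rw [show f = (fun g : Λ → Bool => f fun x => if k : x ∈ Λ then g ⟨x, k⟩ else false) ∘ Λ.restrict from
    funext fun η => h fun x hx => by simp [mem_coe.1 hx]]
  exact continuous_of_discreteTopology.comp (by fun_prop)

open Classical in
theorem gens {N Λ : Finset X} {p : ℝ} {f : (X → Bool) → ℝ} (d : DependsOn f (Λ : Set X)) (η : X → Bool) : gen N p f η =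
    ∑ x ∈ Λ, (if ok N η x then 1 else 0) * (if η x then 1 - p else p) * (f (flip η x) - f η) :=
  tsum_eq_sum fun x n => by rw [d fun y hy => update_of_ne (ne_of_mem_of_not_mem hy n) _ _, sub_self, mul_zero]

theorem genc {N : Finset X} {p : ℝ} {f : (X → Bool) → ℝ} (h : IsLocal f) : Continuous (gen N p f) := by
  obtain ⟨Λ, d⟩ := h
  rw [funext (gens d)]
  refine continuous_finsetSum _ fun x _ => IsLocal.cont ⟨insert x (Λ ∪ N.image (x + ·)), fun a b e => ?_⟩
  have e1 := e x (by simp)
  have e2 : ∀ y ∈ Λ, a y = b y := fun y hy => e y (by simp [hy])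
  have e3 : ok N a x ↔ ok N b x := forall₂_congr fun y hy => by
    rw [e _ (mem_coe.2 (mem_insert_of_mem (mem_union_right _ (mem_image_of_mem _ hy))))]
  have e4 : f (flip a x) = f (flip b x) := d fun y hy => by simp [flip, update_apply, e1, e2 y hy]
  beta_reduce
  rw [e1, propext e3, e4, d e2]

theorem lim (s : Bool) : ∃ μ : Measure (X → Bool), IsProbabilityMeasure μ ∧ ∀ F : (X → Bool) → ℝ, Continuous F →
    ∀ a : ℝ, (∀ᶠ L in atTop, ∑ τ ∈ (fin L).toFinset, w (1 / 10000) L τ * F (emb s τ) ≤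
      a * ∑ τ ∈ (fin L).toFinset, w (1 / 10000) L τ) → ∫ η, F η ∂μ ≤ a := by
  have w0 : ∀ L τ, 0 < w (1 / 10000) L τ := fun _ _ => pow_pos (by norm_num) _
  have Z := fun L => sum_pos (fun τ (_ : τ ∈ (fin L).toFinset) => w0 L τ) ⟨Prod.snd, by simp [S]⟩
  let m : ℕ → Measure (X → Bool) := fun L => ∑ τ ∈ (fin L).toFinset,
    ENNReal.ofReal (w (1 / 10000) L τ / ∑ τ ∈ (fin L).toFinset, w (1 / 10000) L τ) • .dirac (emb s τ)
  have hm : ∀ L, IsProbabilityMeasure (m L) := fun L => ⟨by
    simp only [m, Measure.coe_finsetSum, Finset.sum_apply, Measure.smul_apply, measure_univ, smul_eq_mul, mul_one]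
    rw [← ENNReal.ofReal_sum_of_nonneg fun τ _ => (div_pos (w0 L τ) (Z L)).le, ← sum_div, div_self (Z L).ne',
      ENNReal.ofReal_one]⟩
  obtain ⟨μ, -, h⟩ := (isCompact_univ (X := ProbabilityMeasure (X → Bool))).ultrafilter_le_nhds
    ((hyperfilter ℕ).map fun L => ⟨m L, hm L⟩) (by simp)
  refine ⟨μ, μ.2, fun F c a k => le_of_tendsto (ProbabilityMeasure.tendsto_iff_forall_integral_tendsto.1 h
    (.mkOfCompact ⟨F, c⟩)) ((k.filter_mono (Nat.cofinite_eq_atTop ▸ hyperfilter_le_cofinite)).mono fun L k => ?_)⟩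
  change ∫ η, F η ∂m L ≤ a
  rw [integral_finsetSum_measure fun τ _ => (integrable_dirac (by simp)).smul_measure (by simp)]
  simp only [integral_smul_measure, integral_dirac, ENNReal.toReal_ofReal (div_pos (w0 L _) (Z L)).le, smul_eq_mul,
    div_mul_eq_mul_div]
  rwa [← sum_div, div_le_iff₀ (Z L)]

theorem evB (z : ℤ × ℤ) : ∀ᶠ L in atTop, z ∈ B L :=
  (eventually_ge_atTop (z.1.natAbs + z.2.natAbs)).mono fun L h => by rw [memB]; omega

theorem meas (s : Bool) : ∃ μ : Measure (X → Bool), IsProbabilityMeasure μ ∧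
    (∀ f, IsLocal f → ∫ η, gen N (10000 / 10001) f η ∂μ = 0) ∧
    (∀ F : (X → Bool) → ℝ, Continuous F → (∀ L, ∀ τ ∈ S L, F (emb s τ) = 0) → ∫ η, F η ∂μ = 0) ∧
    ∫ η, (if η (0, 0) = s then 0 else 1 : ℝ) ∂μ ≤ 1 / 3 := by
  classical
  obtain ⟨μ, i, h⟩ := lim s
  have z : ∀ F : (X → Bool) → ℝ, Continuous F → (∀ᶠ L in atTop, ∑ τ ∈ (fin L).toFinset,
      w (1 / 10000) L τ * F (emb s τ) = 0) → ∫ η, F η ∂μ = 0 := fun F c k =>
    (h F c 0 (k.mono fun L k => by simp only [k, zero_mul, le_refl])).antisymm (by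
      simpa [integral_neg] using h (fun η => -F η) c.neg 0 (k.mono fun L k => by
        simp only [mul_neg, sum_neg_distrib, k, zero_mul, neg_zero, le_refl]))
  refine ⟨μ, i, fun f ⟨Λ, d⟩ => ?_, fun F c k => z F c (.of_forall fun L => sum_eq_zero fun τ t => by
    rw [k L τ ((fin L).mem_toFinset.1 t), mul_zero]), h _ (IsLocal.cont ⟨{(0, 0)}, fun a b e => by
      simp only [e (0, 0) (by simp)]⟩) _ (.of_forall fun L => le_trans ?_ (bound L))⟩
  · refine z _ (genc ⟨Λ, d⟩) (((eventually_all_finset Λ).2 fun x _ => evB x.1).mono fun L k => ?_)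
    simp only [gens d]
    simp only [mul_sum]
    rw [sum_comm]
    exact sum_eq_zero fun x hx => db s (k x hx) f
  rw [sum_filter]
  refine sum_le_sum fun τ t => ?_
  have a := ((fin L).mem_toFinset.1 t).1 0 0 (by decide)
  have : 0 < w (1 / 10000) L τ := pow_pos (by norm_num) _
  rw [add_zero] at *
  clear * - a this
  generalize w _ L τ = u at *
  cases s <;> simp only [emb, ↓reduceIte, show ((0, 0) : X).1 = 0 from rfl] <;> cases e : τ (0, true) <;>
    cases g : τ (0, false) <;> simp [e, g, this.le] at a ⊢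

theorem semi {N : Finset X} {p : ℝ} {μ : Measure (X → Bool)} [IsProbabilityMeasure μ]
    (h : ∀ f, IsLocal f → ∫ η, gen N p f η ∂μ = 0) (P : ℝ → C(X → Bool, ℝ) →L[ℝ] C(X → Bool, ℝ)) (p0 : P 0 = 1)
    (pa : ∀ s t, 0 ≤ s → 0 ≤ t → P (s + t) = P s * P t) (pc : ∀ g, ContinuousOn (fun t => P t g) (Set.Ici 0))
    (pg : {a : C(X → Bool, ℝ) × C(X → Bool, ℝ) | HasDerivWithinAt (fun t => P t a.1) a.2 (Set.Ici 0) 0} =
      closure {a : C(X → Bool, ℝ) × C(X → Bool, ℝ) | IsLocal a.1 ∧ a.2 = gen N p a.1}) (t : ℝ) (t0 : 0 ≤ t) (g : C(X → Bool, ℝ)) :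
    ∫ η, P t g η ∂μ = ∫ η, g η ∂μ := by
  have i : ∀ g : C(X → Bool, ℝ), Integrable g μ := fun g => (BoundedContinuousFunction.mkOfCompact g).integrable μ
  let I : C(X → Bool, ℝ) →L[ℝ] ℝ := LinearMap.mkContinuous ⟨⟨fun g => ∫ η, g η ∂μ, fun a b =>
    integral_add (i a) (i b)⟩, fun c a => integral_smul c a⟩ 1 fun g => by
      simpa using norm_integral_le_of_norm_le_const (μ := μ) (ae_of_all _ g.norm_coe_le_norm)
  have z : ∀ a b, HasDerivWithinAt (fun t => P t a) b (Set.Ici 0) 0 → I b = 0 := fun a b k =>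
    closure_minimal (t := {a : C(X → Bool, ℝ) × C(X → Bool, ℝ) | I a.2 = 0})
      (fun a k => (congrArg (integral μ) k.2).trans (h _ k.1))
      (isClosed_eq (by fun_prop) continuous_const) (pg.le (show (a, b) ∈ _ from k))
  let A : Subalgebra ℝ C(X → Bool, ℝ) :=
    { carrier := {g | IsLocal g}
      mul_mem' := fun ⟨a, c⟩ ⟨b, d⟩ => ⟨a ∪ b, fun _ _ e =>
        congrArg₂ (· * ·) (c fun x k => e x (by simp [k])) (d fun x k => e x (by simp [k]))⟩
      add_mem' := fun ⟨a, c⟩ ⟨b, d⟩ => ⟨a ∪ b, fun _ _ e =>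
        congrArg₂ (· + ·) (c fun x k => e x (by simp [k])) (d fun x k => e x (by simp [k]))⟩
      algebraMap_mem' := fun _ => ⟨∅, fun _ _ _ => rfl⟩ }
  refine closure_minimal (t := {g | I (P t g) = I g}) (s := A) (fun f l => ?_) (isClosed_eq (by fun_prop) (by fun_prop))
    ((ContinuousMap.subalgebra_topologicalClosure_eq_top_of_separatesPoints A fun a b n => ?_).ge trivial)
  · have d : HasDerivWithinAt (fun t => P t f) ⟨_, genc l⟩ (Set.Ici 0) 0 :=
      pg.ge (subset_closure (show (f, ⟨_, genc l⟩) ∈ _ from ⟨l, rfl⟩))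
    have := constant_of_has_deriv_right_zero (f := fun t => I (P t f)) (a := 0) (b := t)
      (I.continuous.comp_continuousOn ((pc f).mono Set.Icc_subset_Ici_self)) (fun s hs => ?_) t ⟨t0, le_rfl⟩
    · simpa [p0] using this
    have e := ((P s).hasFDerivAt.comp_hasDerivWithinAt 0 d).congr (f₁ := fun t => P t (P s f))
      (fun u hu => by rw [← mul_apply_eq_comp, ← pa u s hu hs.1, add_comm, pa s u hs.1 hu]; rfl)
      (by simp [p0])
    rw [← z _ _ e]
    refine (I.hasFDerivAt.comp_hasDerivWithinAt _ ?_ :)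
    simpa using (HasDerivWithinAt.scomp s (by rwa [id, sub_self]) ((hasDerivWithinAt_id s (Set.Ici s)).sub_const s)
      (t' := Set.Ici 0) (g₁ := fun t => P t (P s f)) fun u hu => (sub_nonneg.2 hu : 0 ≤ u - s)).congr (f₁ := fun u => P u f)
        (fun u hu => by rw [← sub_add_cancel u s, pa _ s (sub_nonneg.2 hu) hs.1, sub_add_cancel]; rfl) (by simp [p0])
  obtain ⟨x, hx⟩ := ne_iff.1 n
  have l : IsLocal fun η => if η x then 1 else 0 := ⟨{x}, fun a b e => by simp only [e x (by simp)]⟩
  exact ⟨_, ⟨⟨_, l.cont⟩, l, rfl⟩, by simp only [ContinuousMap.coe_mk]; grind⟩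

/-- the box -/
def box (L : ℕ) : Finset X := (Icc (-L : ℤ) L ×ˢ Icc (-L : ℤ) L) ×ˢ Icc (-L : ℤ) L

open Classical in
/-- one bootstrap step -/
def step (N : Finset X) (Λ : Set X) (η : X → Bool) (x : X) : Bool := if x ∈ Λ ∧ ok N η x then false else η x

/-- the conditioning event -/
def cnd (N : Finset X) (L : ℕ) (β : X → Bool) : Set (X → Bool) :=
  {η | ∀ x ∈ box L, β x = true ↔ ∀ n, (step N (box L))^[n] (fun y => if y ∈ box L then η y else true) x = true}

/-- product measure -/
def bern (p : unitInterval) : Measure (X → Bool) := Measure.infinitePi fun _ => bernoulliMeasure true false p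

/-- admissible -/
def Adm (N : Finset X) (p : unitInterval) (β : X → Bool) : Prop :=
  step N Set.univ β = β ∧ (∀ᶠ L in atTop, 0 < bern p (cnd N L β)) ∧ ∀ E : Set (X → Bool), IsLocal (E.indicator 1) →
    ∃ l, Tendsto (fun L => (bern p)[|cnd N L β].real E) atTop (𝓝 l)

/-- the limit -/
def lm (N : Finset X) (p : unitInterval) (β : X → Bool) (f : (X → Bool) → ℝ) : ℝ :=
  limUnder atTop fun L => ∫ η, f η ∂(bern p)[|cnd N L β]

theorem evb (x : X) : ∀ᶠ L in atTop, x ∈ box L :=
  (eventually_ge_atTop (x.1.1.natAbs + x.1.2.natAbs + x.2.natAbs)).mono fun L h => by simp [box]; omega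

theorem rep {p : unitInterval} {s : Bool} {μ ν : Measure (X → Bool)} [IsProbabilityMeasure ν]
    (h : ∀ F : (X → Bool) → ℝ, Continuous F → (∀ L, ∀ τ ∈ S L, F (emb s τ) = 0) → ∫ η, F η ∂μ = 0)
    (a : ∀ᵐ β ∂ν, Adm N p β) (b : ∀ f, IsLocal f → AEStronglyMeasurable (lm N p · f) ν ∧ ∫ η, f η ∂μ = ∫ β, lm N p β f ∂ν)
    (f : (X → Bool) → ℝ) (l : IsLocal f) : ∫ η, f η ∂μ = lm N p (fun x => decide (x.2 ≤ -2 ∨ 3 ≤ x.2)) f := by
  have : IsProbabilityMeasure (bern p) := by unfold bern; infer_instance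
  have k : ∀ E : Set (X → Bool), IsLocal (E.indicator 1) → MeasurableSet E → (∀ L, ∀ τ ∈ S L, emb s τ ∉ E) →
      ∀ᵐ β ∂ν, ¬∀ᶠ L in atTop, cnd N L β ⊆ E := fun E l m k => by
    have u : ∀ᵐ β ∂ν, lm N p β (E.indicator 1) ∈ Set.Icc 0 1 := a.mono fun β ⟨_, _, c⟩ => by
      obtain ⟨u, hu⟩ := c E l
      simp only [lm, integral_indicator_one m, hu.limUnder_eq]
      exact isClosed_Icc.mem_of_tendsto hu (.of_forall fun L => ⟨measureReal_nonneg, measureReal_le_one⟩)
    filter_upwards [a, (integral_eq_zero_iff_of_nonneg_ae (u.mono fun _ k => k.1) (.of_mem_Icc 0 1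
      (b _ l).1.aemeasurable u)).1 ((b _ l).2.symm.trans (h _ l.cont fun L τ t => Set.indicator_of_notMem (k L τ t) _))]
      with β ⟨_, c, _⟩ e d
    refine one_ne_zero ((Tendsto.limUnder_eq (tendsto_const_nhds.congr' ?_)).symm.trans e)
    filter_upwards [c, d] with L c d
    rw [integral_indicator_one m, Measure.real, cond_apply' m, Set.inter_eq_left.2 d,
      ENNReal.inv_mul_cancel c.ne' (measure_ne_top _ _), ENNReal.toReal_one]
  have q : ∀ (x y : X) (c : Bool), (∀ L, ∀ τ ∈ S L, (emb s τ x && emb s τ y) ≠ c) →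
      ∀ᵐ β ∂ν, ¬∀ᶠ L in atTop, cnd N L β ⊆ {η | (η x && η y) = c} := fun x y c => k {η | (η x && η y) = c}
    ⟨{x, y}, fun a b e => by simp [Set.indicator, e x, e y]⟩
      ((Set.to_countable {a : Bool × Bool | (a.1 && a.2) = c}).measurableSet.preimage
        ((measurable_pi_apply (X := fun _ : X => Bool) x).prodMk (measurable_pi_apply y)) :)
  rw [(b f l).2, integral_congr_ae (g := fun _ => lm N p (fun x => decide (x.2 ≤ -2 ∨ 3 ≤ x.2)) f), integral_const,
    probReal_univ, one_smul]
  filter_upwards [a, ae_all_iff.2 fun x : X => ae_all_iff.2 fun y : X => ae_all_iff.2 fun c : Bool =>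
    ae_all_iff.2 (q x (x + y) c)] with β ⟨e, _⟩ q
  congr 1
  ext x
  refine Bool.eq_iff_iff.2 ⟨fun k => by_contra fun n => ?_, fun k => by_contra fun n => ?_⟩
  · obtain ⟨y, hy, u⟩ : ∃ y ∈ N, β (x + y) = true := by
      by_contra! u
      have := congrFun e x
      rw [step, if_pos ⟨trivial, by simpa [ok] using u⟩, k] at this
      exact Bool.noConfusion this
    refine q x y true (fun L τ t => ?_) ?_
    · have := t.1 x.1 y.1 (mem_product.1 hy).1
      have := t.1 (x.1 + y.1) _ (negN (mem_product.1 hy).1)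
      have := (mem_product.1 hy).2
      cases s <;> simp only [emb, Prod.fst_add, Prod.snd_add, add_neg_cancel_right] at * <;> grind
    filter_upwards [evb x, evb (x + y)] with L a b η c
    simpa [a, b] using And.intro ((c x a).1 k 0) ((c _ b).1 u 0)
  obtain ⟨y, y1, y2, u⟩ : ∃ y ∈ N, -y ∈ N ∧ ((x + y).2 ≤ -2 ∨ 3 ≤ (x + y).2) := by
    rcases of_decide_eq_true k with k | k
    · exact ⟨(0, -1), by decide, by decide, .inl (by simp; omega)⟩
    exact ⟨(0, 1), by decide, by decide, .inr (by simp; omega)⟩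
  refine q x y false (fun L τ t => by simp only [emb]; grind) ?_
  filter_upwards [evb x] with L a η c
  refine by_contra fun v => n ((c x a).2 fun m => And.left (b := (step N (box L))^[m]
    (fun y => if y ∈ box L then η y else true) (x + y) = true) ?_)
  induction m with
  | zero => simp at v; simp [v]
  | succ m ih =>
    simp only [iterate_succ_apply', step]
    refine ⟨(if_neg fun k => ?_).trans ih.1, (if_neg fun k => ?_).trans ih.2⟩
    · exact Bool.noConfusion (ih.2.symm.trans (k.2 y y1))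
    have := k.2 _ y2
    rw [add_neg_cancel_right, ih.1] at this
    exact Bool.noConfusion this

theorem main : ∃ (p : unitInterval) (μ : Measure (X → Bool)), 0 < p ∧ p < 1 ∧ IsProbabilityMeasure μ ∧
    (∀ f, IsLocal f → ∫ η, gen N p f η ∂μ = 0) ∧ ¬∃ ν : Measure (X → Bool), IsProbabilityMeasure ν ∧
      (∀ᵐ β ∂ν, Adm N p β) ∧
        ∀ f, IsLocal f → AEStronglyMeasurable (lm N p · f) ν ∧ ∫ η, f η ∂μ = ∫ β, lm N p β f ∂ν := by
  by_contra! c
  choose μ i a b d using meas
  have l : ∀ s : Bool, IsLocal fun η => if η (0, 0) = s then 0 else 1 := fun s =>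
    ⟨{(0, 0)}, fun a b e => by simp only [e (0, 0) (by simp)]⟩
  have e := fun s => (c ⟨10000 / 10001, by norm_num, by norm_num⟩ (μ s) (by simp [← Subtype.coe_lt_coe])
    (by norm_num [← Subtype.coe_lt_coe]) (i s) (a s)).elim fun ν k => @rep _ s _ ν k.1 (b s) k.2.1 k.2.2 _ (l true)
  have := i false
  have g := integral_add (μ := μ false) ((BoundedContinuousFunction.mkOfCompact ⟨_, (l true).cont⟩).integrable _)
    ((BoundedContinuousFunction.mkOfCompact ⟨_, (l false).cont⟩).integrable _)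
  simp only [BoundedContinuousFunction.mkOfCompact_apply, ContinuousMap.coe_mk] at g
  rw [integral_congr_ae (g := fun _ => 1) (ae_of_all _ fun η => by cases η (0, 0) <;> simp), integral_const,
    probReal_univ, one_smul, e, ← e true] at g
  linarith [d true, d false]

end

end Pool.Agent.H.MP_6f5b46_pr
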